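import Pool.Agent.Lib.MP_305fdd_al.Su.AE.Main
import Pool.Agent.Lib.MP_305fdd_al.Su.AA.Lx
import Pool.Agent.Lib.MP_305fdd_al.Su.Cup.Form
import Pool.Agent.Lib.MP_305fdd_al.Su.Fo.NoAb

/-!
# MP_305fdd_al, closed surface groups: EX for the package `Pk`
-/

set_option autoImplicit false

namespace Pool.Agent.SuAE

open Matrix Pool.Agent.FrS

/-- the two forms of CUP -/
theorem cup_of_dep {Γ : Type} [Group Γ]
    (h : ∀ x y : Γ, x * y = y * x → (∀ χ : Γ →* Multiplicative (ZMod 2), χ x = 1) ∨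
      (∀ χ : Γ →* Multiplicative (ZMod 2), χ y = 1) ∨
      ∀ χ : Γ →* Multiplicative (ZMod 2), χ x = χ y) : Cup Γ := by
  rintro x y hxy φ ψ ⟨h1, h2, h3, h4⟩
  rcases h x y hxy with h5 | h5 | h5
  · exact h1 (h5 φ)
  · exact h4 (h5 ψ)
  · exact h1 ((h5 φ).trans h2)

/-- EX for the package `Pk` (with the theorem DIV as hypothesis) -/
theorem exh_pk {g : ℕ} {Λ Γ F : Type} [Group Λ] [Group Γ] [Field F] [Algebra (ZMod 2) F]
    {π : Λ →* Γ} {ρ : Γ →* SpecialLinearGroup (Fin 2) F} (P : SuAA.Pk g π ρ)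
    (hdiv : ∀ x, (ρ x).1.trace = 0 → x = 1) : SuFo.EXh Γ :=
  fun _ _ _ h hA hM hab hC hne =>
    ex (P.sc hdiv) P.gd0 (cup_of_dep (SuCup.cup_pk P)) h hA hM hab hC hne

end Pool.Agent.SuAE
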