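import Pool.Agent.Lib.MP_305fdd_al.Su.AE.Even
import Pool.Agent.Lib.MP_305fdd_al.Su.EX.Main
import Pool.Agent.Lib.MP_305fdd_al.Su.L.NoAb

/-!
# MP_305fdd_al, closed surface groups: there is no amalgam with an abelian side (master text, 3.4)
-/

set_option autoImplicit false
set_option linter.unusedSectionVars false

namespace Pool.Agent.SuAE

open Matrix Pool.Agent.Lib.MP_305fdd_al Pool.Agent.MP_305fdd_al Pool.Agent.SurfCnt Pool.Agent.SuD
  Pool.Agent.FrAsm Pool.Agent.FrS Pool.Agent.SuFI Pool.Agent.SuS Pool.Agent.FrS.GG Pool.Agent.SuL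

/-- subgroups of finitely generated abelian groups are finitely generated -/
theorem fg_comm {Γ : Type} [Group Γ] {M C : Subgroup Γ} (hM : M.FG)
    (hab : ∀ x ∈ M, ∀ y ∈ M, x * y = y * x) (h : C ≤ M) : C.FG := by
  let _ : CommGroup M := { (inferInstance : Group M) with
    mul_comm := fun y z => Subtype.ext (hab _ y.2 _ z.2) }
  let _ : CommGroup C := { (inferInstance : Group C) with
    mul_comm := fun y z => Subtype.ext (hab _ (h y.2) _ (h z.2)) }
  have hM' : Group.FG M := (Group.fg_iff_subgroup_fg _).2 hM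
  have h1 : Module.Finite ℤ (Additive M) := Module.Finite.iff_addGroup_fg.2
    (GroupFG.iff_add_fg.1 hM')
  let i : Additive C →+ Additive M := MonoidHom.toAdditive (Subgroup.inclusion h)
  have hi : Function.Injective i := by
    intro x y hxy
    have h1 : Subgroup.inclusion h x.toMul = Subgroup.inclusion h y.toMul := hxy
    exact Additive.toMul.injective (Subgroup.inclusion_injective h h1)
  have h2 : Module.Finite ℤ (Additive C) := Module.Finite.of_injective i.toIntLinearMap hi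
  have h3 : Group.FG C := GroupFG.iff_add_fg.2 (Module.Finite.iff_addGroup_fg.1 h2)
  exact (Group.fg_iff_subgroup_fg _).1 h3

variable {g : ℕ} {Λ Γ K F : Type} [Group Λ] [Group Γ] [Field K] [Field F] [Algebra (ZMod 2) K]
  [Algebra (ZMod 2) F] [Algebra K F] {T : Γ → K} {ρ : Γ →* SpecialLinearGroup (Fin 2) F}
  {π : Λ →* Γ}

/-- EX: there is no amalgam with an abelian side. -/
theorem ex (H : Sc Γ K F T ρ) (D : Gd0 g π ρ) (hcup : Cup Γ) {A M C : Subgroup Γ}
    (h : IsAm ⊤ A M C) (hA : A.FG) (hM : M.FG) (hab : ∀ x ∈ M, ∀ y ∈ M, x * y = y * x)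
    (hC : C ≠ ⊥) (hne : ∃ m ∈ M, m ∉ C) : False := by
  have hCfg : C.FG := fg_comm hM hab h.le'
  have hΓ := H.fg
  obtain ⟨Φ⟩ := D.nb
  obtain ⟨⟨z, hz⟩, hz1⟩ := Subgroup.ne_bot_iff_exists_ne_one.1 hC
  have hz1' : z ≠ 1 := fun h0 => hz1 (Subtype.ext h0)
  have hρz : ρ z ≠ 1 := fun h0 => hz1' (H.inj (by rw [h0, map_one]))
  obtain ⟨hfi, -⟩ := SuEX.lx_am H.lx h hA hM hCfg hab z hz hρz
  have hA' : Group.FG A := (Group.fg_iff_subgroup_fg _).2 hA
  have hM' : Group.FG M := (Group.fg_iff_subgroup_fg _).2 hM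
  have htf := sc_tf H D
  let _ : CommGroup M := { (inferInstance : Group M) with
    mul_comm := fun y z => Subtype.ext (hab _ y.2 _ z.2) }
  have hpow : ∀ x ∈ M, x ^ (C.subgroupOf M).index ∈ C := by
    intro x hx
    have h1 := Subgroup.pow_index_mem (C.subgroupOf M) (⟨x, hx⟩ : M)
    exact h1
  rcases Nat.even_or_odd (C.subgroupOf M).index with hev | hodd
  · have hfinQ : Finite (M ⧸ C.subgroupOf M) := Subgroup.finite_quotient_of_finiteIndex
    have hdvd : 2 ∣ Nat.card (M ⧸ C.subgroupOf M) := hev.two_dvd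
    obtain ⟨q, hq⟩ := exists_prime_orderOf_dvd_card' 2 hdvd
    obtain ⟨⟨w, hw⟩, rfl⟩ := QuotientGroup.mk_surjective q
    have h1 : w ∉ C := by
      intro hc
      have h2 : ((⟨w, hw⟩ : M) : M ⧸ C.subgroupOf M) = 1 :=
        (QuotientGroup.eq_one_iff (N := C.subgroupOf M) (⟨w, hw⟩ : M)).2 hc
      rw [h2, orderOf_one] at hq
      omega
    have h2 : w ^ 2 ∈ C := by
      have h3 := pow_orderOf_eq_one ((⟨w, hw⟩ : M) : M ⧸ C.subgroupOf M)
      rw [hq, ← QuotientGroup.mk_pow] at h3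
      exact (QuotientGroup.eq_one_iff (N := C.subgroupOf M) _).1 h3
    exact ex_even Φ D.fac hcup hA' hM' (fun x n hn hx => htf x n hn hx) h hab hfi hw h1 h2
  · exact ex_odd Φ D.fac hcup hA' h hab hodd hpow hfi hne

end Pool.Agent.SuAE
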