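import Pool.Agent.Lib.MP_305fdd_al.Su.FI.Root

/-!
# MP_305fdd_al, closed surface groups: amalgams with an abelian side, the counting core
-/

set_option autoImplicit false
set_option linter.unusedSectionVars false

namespace Pool.Agent.SuAE

open Matrix Pool.Agent.Lib.MP_305fdd_al Pool.Agent.MP_305fdd_al Pool.Agent.SurfCnt Pool.Agent.SuD
  Pool.Agent.FrAsm Pool.Agent.FrS Pool.Agent.SuFI

/-- `Q` embeds into `SL_2(R)` for some commutative ring `R` of characteristic two -/
def EmbR (Q : Type) [Group Q] : Prop :=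
  ∃ (R : Type) (_ : CommRing R) (_ : Algebra (ZMod 2) R)
    (j : Q →* SpecialLinearGroup (Fin 2) R), Function.Injective j

theorem EmbR.of_inj {Q R : Type} [Group Q] [Group R] (h : EmbR R) (f : Q →* R)
    (hf : Function.Injective f) : EmbR Q := by
  obtain ⟨κ, _, _, j, hj⟩ := h
  exact ⟨κ, inferInstance, inferInstance, j.comp f, hj.comp hf⟩

theorem Emb.embR {Q : Type} [Group Q] (h : Emb Q) : EmbR Q := by
  obtain ⟨κ, _, _, _, j, hj⟩ := h
  exact ⟨κ, inferInstance, inferInstance, j, hj⟩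

/-- every abelian group embeds into the units of its group algebra -/
theorem embR_comm (Q : Type) [CommGroup Q] : EmbR Q := by
  let R := MonoidAlgebra (ZMod 2) Q
  let o : Q →* Rˣ := (MonoidAlgebra.of (ZMod 2) Q).toHomUnits
  let D : Rˣ →* SpecialLinearGroup (Fin 2) R :=
    { toFun := fun u => ⟨!![(u : R), 0; 0, ((u⁻¹ : Rˣ) : R)], by
        rw [Matrix.det_fin_two_of]
        simp⟩
      map_one' := by
        apply Subtype.ext
        change !![((1 : Rˣ) : R), 0; 0, (((1 : Rˣ)⁻¹ : Rˣ) : R)] = 1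
        ext i j
        fin_cases i <;> fin_cases j <;> simp
      map_mul' := fun u v => by
        apply Subtype.ext
        change !![((u * v : Rˣ) : R), 0; 0, (((u * v)⁻¹ : Rˣ) : R)] =
          !![(u : R), 0; 0, ((u⁻¹ : Rˣ) : R)] * !![(v : R), 0; 0, ((v⁻¹ : Rˣ) : R)]
        rw [Matrix.mul_fin_two]
        ext i j
        fin_cases i <;> fin_cases j <;> simp [mul_comm] }
  refine ⟨R, inferInstance, inferInstance, D.comp o, ?_⟩
  intro x y h
  have h1 : ((o x : Rˣ) : R) = ((o y : Rˣ) : R) := congrFun (congrFun (congrArg Subtype.val h) 0) 0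
  exact MonoidAlgebra.of_injective h1

section am

variable {Γ : Type} [Group Γ] {A A' D : Subgroup Γ}

/-- gluing of homomorphisms to a group which embeds into `SL_2(R)` -/
theorem am_extR (h : IsAm ⊤ A A' D) {Q : Type} [Group Q] (hQ : EmbR Q) (a : A →* Q) (c : A' →* Q)
    (hD : ∀ d (hd : d ∈ D), a ⟨d, h.le hd⟩ = c ⟨d, h.le' hd⟩) :
    ∃ r : Γ →* Q, (∀ x : A, r x = a x) ∧ ∀ x : A', r x = c x := by
  classical
  obtain ⟨κ, _, _, j, hj⟩ := hQ
  let ra : Γ → SpecialLinearGroup (Fin 2) κ := fun x => if hx : x ∈ A then j (a ⟨x, hx⟩) else 1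
  let rc : Γ → SpecialLinearGroup (Fin 2) κ := fun x => if hx : x ∈ A' then j (c ⟨x, hx⟩) else 1
  have hra : ∀ x (hx : x ∈ A), ra x = j (a ⟨x, hx⟩) := fun x hx => dif_pos hx
  have hrc : ∀ x (hx : x ∈ A'), rc x = j (c ⟨x, hx⟩) := fun x hx => dif_pos hx
  obtain ⟨q, hq, hqa, hqc⟩ := h.ext κ ra rc (by
      intro x hx y hy
      rw [hra x hx, hra y hy, hra _ (mul_mem hx hy), ← map_mul, ← map_mul]
      rfl) (by
      intro x hx y hy
      rw [hrc x hx, hrc y hy, hrc _ (mul_mem hx hy), ← map_mul, ← map_mul]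
      rfl) (by
      intro d hd
      rw [hra d (h.le hd), hrc d (h.le' hd), hD d hd])
  let q' : Γ →* SpecialLinearGroup (Fin 2) κ :=
    MonoidHom.mk' q (fun x y => hq x (Subgroup.mem_top x) y (Subgroup.mem_top y))
  have hqr : ∀ x, q' x ∈ j.range := by
    intro x
    have h1 : (⊤ : Subgroup Γ) ≤ j.range.comap q' := by
      rw [h.sup]
      refine sup_le ?_ ?_
      · intro y hy
        exact ⟨a ⟨y, hy⟩, by rw [← hra y hy]; exact (hqa y hy).symm⟩
      · intro y hy
        exact ⟨c ⟨y, hy⟩, by rw [← hrc y hy]; exact (hqc y hy).symm⟩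
    exact h1 (Subgroup.mem_top x)
  let e := (MonoidHom.ofInjective hj).symm
  have he : ∀ q : Q, e ⟨j q, ⟨q, rfl⟩⟩ = q := fun q => (MonoidHom.ofInjective hj).symm_apply_apply q
  refine ⟨e.toMonoidHom.comp (q'.codRestrict j.range hqr), ?_, ?_⟩
  · intro x
    change e ⟨q' x, hqr x⟩ = a x
    rw [← he (a x)]
    congr 1
    apply Subtype.ext
    change q x = j (a x)
    rw [hqa x x.2, hra x x.2]
  · intro x
    change e ⟨q' x, hqr x⟩ = c x
    rw [← he (c x)]
    congr 1
    apply Subtype.ext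
    change q x = j (c x)
    rw [hqc x x.2, hrc x x.2]

end am

section core

variable {g : ℕ} {Λ Γ : Type} [Group Λ] [Group Γ] {π : Λ →* Γ}

/-- the numerical core -/
theorem ex_core (Φ : NatBij Λ (SurfG g)) (hs : Function.Surjective π) {A M C : Subgroup Γ}
    (hA : Group.FG A) (h : IsAm ⊤ A M C)
    {Q P : Type} [Group Q] [Finite Q] [AddCommGroup P] [Finite P] [DistribMulAction Q P]
    (hE : EmbR (AF Q P)) (θ : M →* Q) (ψM : P → (M →* AF Q P)) (hψ : ∀ X x, (ψM X x).q = θ x)
    (x₁ : M) (hx₁ : ∀ X, (ψM X x₁).v = X) (φ : P → (A →* Multiplicative P))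
    (hφ : ∀ X c (hc : c ∈ C), ψM X ⟨c, h.le' hc⟩ = ⟨(φ X ⟨c, h.le hc⟩).toAdd, 1⟩)
    (c₀ : A) (hc₀ : ∀ u : A →* Multiplicative P, u c₀ = 1 → ∀ c (hc : c ∈ C),
      u ⟨c, h.le hc⟩ = 1)
    (h1 : ∀ ϑ : Λ →* Q, (∃ x, ϑ x = θ x₁) → Nat.card (Crs ϑ P) < Nat.card P ^ (2 * g))
    (h2 : Nat.card P ^ (2 * g) ≤ Nat.card (A →* Multiplicative P)) : False := by
  classical
  have hEQ : EmbR Q := by
    refine hE.of_inj
      { toFun := fun x => (⟨0, x⟩ : AF Q P)
        map_one' := rfl
        map_mul' := fun x y => AF.ext (by simp) rfl } ?_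
    intro x y h
    exact congrArg AF.q h
  have hθC : ∀ c (hc : c ∈ C), θ ⟨c, h.le' hc⟩ = 1 := by
    intro c hc
    rw [← hψ 0, hφ 0 c hc]
  -- the representation
  obtain ⟨ϑ, hϑA, hϑM⟩ := am_extR h hEQ (1 : A →* Q) θ (fun d hd => (hθC d hd).symm)
  let U := {u : A →* Multiplicative P // ∀ c (hc : c ∈ C), u ⟨c, h.le hc⟩ = 1}
  have hfinP : Finite (A →* Multiplicative P) := by
    obtain ⟨S, hS⟩ := hA.out
    refine Finite.of_injective (fun f : A →* Multiplicative P => fun s : S => f s.1) ?_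
    intro f f' he
    refine MonoidHom.eq_of_eqOn_dense hS ?_
    intro s hs
    exact congrFun he ⟨s, hs⟩
  have hex : ∀ p : U × P, ∃ ψ : Γ →* AF Q P,
      (∀ x : A, ψ x = ⟨(p.1.1 x).toAdd + (φ p.2 x).toAdd, 1⟩) ∧ ∀ x : M, ψ x = ψM p.2 x := by
    rintro ⟨⟨u, hu⟩, X⟩
    let a : A →* AF Q P := MonoidHom.mk' (fun x => (⟨(u x).toAdd + (φ X x).toAdd, 1⟩ : AF Q P))
      (fun x y => by
        apply AF.ext
        · change (u (x * y)).toAdd + (φ X (x * y)).toAdd =
            (u x).toAdd + (φ X x).toAdd + (1 : Q) • ((u y).toAdd + (φ X y).toAdd)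
          have e1 : (u (x * y)).toAdd = (u x).toAdd + (u y).toAdd :=
            congrArg Multiplicative.toAdd (u.map_mul x y)
          have e2 : (φ X (x * y)).toAdd = (φ X x).toAdd + (φ X y).toAdd :=
            congrArg Multiplicative.toAdd ((φ X).map_mul x y)
          rw [one_smul, e1, e2]
          abel
        · rw [AF.mul_q, mul_one])
    refine am_extR h hE a (ψM X) ?_
    intro d hd
    rw [hφ X d hd]
    change (⟨(u _).toAdd + (φ X _).toAdd, 1⟩ : AF Q P) = _
    rw [hu d hd, toAdd_one, zero_add]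
  choose ψ hψA hψM using hex
  have hψθ : ∀ p, (AF.pr Q P).comp (ψ p) = ϑ := by
    intro p
    refine am_hom_eq h ?_ ?_
    · intro x
      rw [MonoidHom.comp_apply, hψA, hϑA]
      rfl
    · intro x
      rw [MonoidHom.comp_apply, hψM, hϑM]
      exact hψ _ _
  have hlt : Nat.card (Crs (ϑ.comp π) P) < Nat.card P ^ (2 * g) := by
    obtain ⟨y, hy⟩ := hs x₁
    exact h1 (ϑ.comp π) ⟨y, by rw [MonoidHom.comp_apply, hy, hϑM]⟩
  have hfinC : Finite (Crs (ϑ.comp π) P) := by
    apply Nat.finite_of_card_ne_zero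
    intro h0
    have h8 := card_Crs Φ (ϑ.comp π) P
    rw [h0, zero_mul] at h8
    have : 0 < Nat.card P := Nat.card_pos
    have h9 : 0 < Nat.card P ^ (2 * g) := by positivity
    omega
  have hfinT : Finite (Crs ϑ P) := by
    refine Finite.of_injective (fun c : Crs ϑ P => (⟨fun x => c.1 (π x), fun x y => by
      change c.1 (π (x * y)) = _
      rw [map_mul]
      exact c.2 (π x) (π y)⟩ : Crs (ϑ.comp π) P)) ?_
    intro c c' he
    apply Subtype.ext
    funext y
    obtain ⟨x, rfl⟩ := hs y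
    exact congrFun (congrArg Subtype.val he) x
  have hle : Nat.card U * Nat.card P ≤ Nat.card (Crs ϑ P) := by
    rw [← Nat.card_prod, Nat.card_congr (crsEquiv ϑ P)]
    have hfinX : Finite {ψ : Γ →* AF Q P // (AF.pr Q P).comp ψ = ϑ} :=
      Finite.of_equiv _ (crsEquiv ϑ P)
    refine Nat.card_le_card_of_injective (fun p : U × P =>
      (⟨ψ p, hψθ p⟩ : {ψ : Γ →* AF Q P // (AF.pr Q P).comp ψ = ϑ})) ?_
    intro p p' hpp
    have h9 : ψ p = ψ p' := congrArg Subtype.val hpp
    have h10 : p.2 = p'.2 := by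
      have e1 := hψM p x₁
      rw [h9, hψM p' x₁] at e1
      have e2 := congrArg AF.v e1
      rw [hx₁, hx₁] at e2
      exact e2.symm
    refine Prod.ext (Subtype.ext (MonoidHom.ext fun x => ?_)) h10
    have h11 := hψA p x
    rw [h9, hψA p' x, h10] at h11
    have h12 := congrArg AF.v h11
    exact (add_right_cancel h12).symm
  have hup : Nat.card (Crs ϑ P) ≤ Nat.card (Crs (ϑ.comp π) P) := card_Crs_le hs ϑ
  -- all characters of `A`
  have hall : Nat.card (A →* Multiplicative P) ≤ Nat.card U * Nat.card P := by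
    let ev : (A →* Multiplicative P) →* Multiplicative P :=
      { toFun := fun f => f c₀
        map_one' := rfl
        map_mul' := fun _ _ => rfl }
    have e1 : Nat.card ev.ker ≤ Nat.card U := by
      refine Nat.card_le_card_of_injective (fun f : ev.ker => (⟨f.1, hc₀ f.1 f.2⟩ : U)) ?_
      intro f f' hff
      exact Subtype.ext (congrArg (fun u : U => u.1) hff)
    have e2 : Nat.card (A →* Multiplicative P) = Nat.card ev.ker * Nat.card ev.range := by
      have h11 : Nat.card ((A →* Multiplicative P) ⧸ ev.ker) = Nat.card ev.range :=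
        Nat.card_congr (QuotientGroup.quotientKerEquivRange ev).toEquiv
      rw [← h11, mul_comm]
      exact Subgroup.card_eq_card_quotient_mul_card_subgroup ev.ker
    rw [e2]
    refine Nat.mul_le_mul e1 ?_
    have : Nat.card ev.range ≤ Nat.card (Multiplicative P) :=
      Nat.card_le_card_of_injective _ Subtype.val_injective
    exact this
  omega

end core

end Pool.Agent.SuAE
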