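import Pool.Agent.Lib.MP_305fdd_al.Su.FI.Rank

/-!
# MP_305fdd_al, closed surface groups: elementary facts on abelian groups and characters of order two
-/

set_option autoImplicit false
set_option linter.unusedSectionVars false

namespace Pool.Agent.SuAE

/-- an element on which all characters of order two vanish is divisible by two -/
theorem half_of_char {B : Type} [AddCommGroup B] {x : B} (h : ∀ f : B →+ ZMod 2, f x = 0) :
    ∃ b, x = b + b := by
  let N : AddSubgroup B := (nsmulAddMonoidHom 2 : B →+ B).range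
  have h2 : ∀ v : B ⧸ N, 2 • v = 0 := by
    intro v
    obtain ⟨b, rfl⟩ := QuotientAddGroup.mk_surjective v
    rw [← QuotientAddGroup.mk_nsmul]
    exact (QuotientAddGroup.eq_zero_iff _).2 ⟨b, rfl⟩
  let _ : Module (ZMod 2) (B ⧸ N) := AddCommGroup.zmodModule h2
  have h3 : (QuotientAddGroup.mk x : B ⧸ N) = 0 := by
    apply (Module.forall_dual_apply_eq_zero_iff (ZMod 2) _).1
    intro f
    exact h (f.toAddMonoidHom.comp (QuotientAddGroup.mk' N))
  obtain ⟨b, hb⟩ := (QuotientAddGroup.eq_zero_iff x).1 h3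
  refine ⟨b, ?_⟩
  rw [← hb]
  exact two_nsmul b

/-- a finite abelian group without characters of order two has no element of order two -/
theorem no_two {B : Type} [AddCommGroup B] [Finite B] (h : ∀ f : B →+ ZMod 2, f = 0) {t : B}
    (ht : t + t = 0) : t = 0 := by
  have hs : Function.Surjective (fun b : B => b + b) := by
    intro x
    obtain ⟨b, hb⟩ := half_of_char (x := x) (fun f => by rw [h f]; rfl)
    exact ⟨b, hb.symm⟩
  have hi : Function.Injective (fun b : B => b + b) := Finite.injective_iff_surjective.2 hs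
  apply hi
  change t + t = 0 + 0
  rw [ht, add_zero]

/-- the abelianisation of a group with `ℓ ^ n` characters of order `ℓ` for all primes `ℓ` has no
element of order two -/
theorem ab_no_two {G : Type} [Group G] [Group.FG G] {m : ℕ}
    (hm : ∀ ℓ : ℕ, ℓ.Prime → Nat.card (G →* Multiplicative (ZMod ℓ)) = ℓ ^ m)
    (x : Additive (Abelianization G)) (hx : x + x = 0) : x = 0 := by
  have hsurj : Function.Surjective (Abelianization.of : G →* Abelianization G) :=
    QuotientGroup.mk'_surjective _
  have hfg : AddGroup.FG (Additive (Abelianization G)) := by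
    have : Group.FG (Abelianization G) := Group.fg_of_surjective hsurj
    exact GroupFG.iff_add_fg.1 this
  obtain ⟨n, ι, _, p, hp, e, ⟨E⟩⟩ := AddCommGroup.equiv_free_prod_directSum_zmod
    (Additive (Abelianization G))
  have hfT : Finite (DirectSum ι fun i => ZMod (p i ^ e i)) := by
    have : ∀ i, NeZero (p i ^ e i) := fun i => ⟨pow_ne_zero _ (hp i).ne_zero⟩
    exact Finite.of_equiv _ (DirectSum.addEquivProd fun i => ZMod (p i ^ e i)).symm.toEquiv
  set T := DirectSum ι fun i => ZMod (p i ^ e i)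
  have hcard : ∀ ℓ : ℕ, ℓ.Prime → Nat.card (G →* Multiplicative (ZMod ℓ)) =
      ℓ ^ n * Nat.card (T →+ ZMod ℓ) := by
    intro ℓ hℓ
    rw [Nat.card_congr (SuFI.homAb G (ZMod ℓ)), Nat.card_congr (SuFI.homProd E), Nat.card_prod,
      Nat.card_fun, Nat.card_zmod, Nat.card_fin]
  have hfin : ∀ ℓ : ℕ, ℓ.Prime → Finite (T →+ ZMod ℓ) := by
    intro ℓ hℓ
    have : NeZero ℓ := ⟨hℓ.ne_zero⟩
    exact Finite.of_injective (fun f : T →+ ZMod ℓ => (f : T → ZMod ℓ)) DFunLike.coe_injective
  -- the rank
  have hnm : n = m := by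
    have hc0 : 0 < Nat.card T := Nat.card_pos
    obtain ⟨ℓ, hℓN, hℓ⟩ := Nat.exists_infinite_primes (Nat.card T + 1)
    have h1 : Subsingleton (T →+ ZMod ℓ) := by
      constructor
      intro f f'
      have hz : ∀ f : T →+ ZMod ℓ, f = 0 := by
        intro f
        apply AddMonoidHom.ext
        intro t
        have h2 : (Nat.card T : ZMod ℓ) * f t = 0 := by
          rw [← nsmul_eq_mul, ← map_nsmul]
          have h3 : Nat.card T • t = 0 := by
            exact card_nsmul_eq_zero'
          rw [h3, map_zero]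
        have : Fact ℓ.Prime := ⟨hℓ⟩
        rcases mul_eq_zero.1 h2 with h3 | h3
        · exfalso
          have h4 := Nat.le_of_dvd hc0 ((ZMod.natCast_eq_zero_iff _ _).1 h3)
          omega
        · exact h3
      rw [hz f, hz f']
    have h4 : Nat.card (T →+ ZMod ℓ) = 1 := Nat.card_unique
    have h5 := hcard ℓ hℓ
    rw [h4, mul_one, hm ℓ hℓ] at h5
    exact (Nat.pow_right_injective hℓ.two_le h5).symm
  have hT : ∀ f : T →+ ZMod 2, f = 0 := by
    have h5 := hcard 2 Nat.prime_two
    rw [hm 2 Nat.prime_two, hnm] at h5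
    have h6 : 0 < 2 ^ m := by positivity
    have h7 : Nat.card (T →+ ZMod 2) = 1 := by
      have h8 : 2 ^ m * Nat.card (T →+ ZMod 2) = 2 ^ m * 1 := by rw [mul_one]; exact h5.symm
      exact Nat.eq_of_mul_eq_mul_left h6 h8
    obtain ⟨f₀, hf₀⟩ := Nat.card_eq_one_iff_exists.1 h7
    intro f
    rw [hf₀ f, hf₀ 0]
  have h1 : E x + E x = 0 := by rw [← map_add, hx, map_zero]
  have h2 : E x = 0 := by
    refine Prod.ext ?_ ?_
    · have h3 : (E x).1 + (E x).1 = 0 := congrArg Prod.fst h1
      change (E x).1 = 0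
      ext i
      have h4 := DFunLike.congr_fun h3 i
      rw [Finsupp.add_apply, Finsupp.zero_apply] at h4
      rw [Finsupp.zero_apply]
      omega
    · exact no_two hT (congrArg Prod.snd h1)
  exact E.injective (by rw [h2, map_zero])

section free

variable {B : Type} [AddCommGroup B]

theorem free_of_tf (hfg : AddGroup.FG B) (htf : ∀ (n : ℕ) (x : B), n ≠ 0 → n • x = 0 → x = 0) :
    Module.Finite ℤ B ∧ Module.Free ℤ B := by
  have h1 : Module.Finite ℤ B := Module.Finite.iff_addGroup_fg.2 hfg
  have h2 : Module.IsTorsionFree ℤ B := by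
    rw [Module.isTorsionFree_iff_smul_eq_zero]
    intro n x hnx
    by_contra hcon
    push Not at hcon
    obtain ⟨hn, hx⟩ := hcon
    apply hx
    apply htf n.natAbs x (Int.natAbs_ne_zero.2 hn)
    rcases Int.natAbs_eq n with h | h
    · rw [← natCast_zsmul, ← h]
      exact hnx
    · have h3 : ((n.natAbs : ℤ)) = -n := by omega
      rw [← natCast_zsmul, h3, neg_smul, hnx, neg_zero]
  exact ⟨h1, Module.free_of_finite_type_torsion_free'⟩

theorem card_char [Module.Finite ℤ B] [Module.Free ℤ B] :
    Nat.card (B →+ ZMod 2) = 2 ^ Module.finrank ℤ B := by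
  let b := Module.finBasis ℤ B
  let e : (B →+ ZMod 2) ≃ (Fin (Module.finrank ℤ B) → ZMod 2) :=
    (addMonoidHomLequivInt (A := B) (B := ZMod 2) ℤ).toEquiv.trans (b.constr ℤ).symm.toEquiv
  rw [Nat.card_congr e, Nat.card_fun, Nat.card_zmod, Nat.card_fin]

/-- a subgroup has at most as many characters of order two -/
theorem card_char_le {N : Type} [AddCommGroup N] (hfg : AddGroup.FG B)
    (htf : ∀ (n : ℕ) (x : B), n ≠ 0 → n • x = 0 → x = 0) (i : N →+ B)
    (hi : Function.Injective i) : Nat.card (N →+ ZMod 2) ≤ Nat.card (B →+ ZMod 2) := by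
  obtain ⟨_, _⟩ := free_of_tf hfg htf
  have hN1 : Module.Finite ℤ N := Module.Finite.of_injective i.toIntLinearMap hi
  obtain ⟨_, _⟩ := free_of_tf (B := N) (Module.Finite.iff_addGroup_fg.1 hN1) (by
    intro n x hn hx
    apply hi
    rw [map_zero]
    exact htf n _ hn (by rw [← map_nsmul, hx, map_zero]))
  rw [card_char, card_char]
  refine Nat.pow_le_pow_right (by norm_num) ?_
  exact LinearMap.finrank_le_finrank_of_injective (f := i.toIntLinearMap) hi

/-- characters of order two lift to characters of order four -/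
theorem lift4 (hfg : AddGroup.FG B)
    (htf : ∀ (n : ℕ) (x : B), n ≠ 0 → n • x = 0 → x = 0) (θ : B →+ ZMod 2) :
    ∃ f : B →+ ZMod 4, ∀ x, ZMod.castHom (show 2 ∣ 4 by norm_num) (ZMod 2) (f x) = θ x := by
  obtain ⟨_, _⟩ := free_of_tf hfg htf
  obtain ⟨f, hf⟩ := Module.projective_lifting_property
    ((ZMod.castHom (show 2 ∣ 4 by norm_num) (ZMod 2)).toAddMonoidHom.toIntLinearMap)
    θ.toIntLinearMap (ZMod.castHom_surjective (show 2 ∣ 4 by norm_num))
  exact ⟨f.toAddMonoidHom, fun x => LinearMap.congr_fun hf x⟩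

end free

end Pool.Agent.SuAE
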