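import Pool.Agent.Lib.MP_305fdd_al.Su.AE.Odd
import Pool.Agent.Lib.MP_305fdd_al.Su.AE.Lin
import Pool.Agent.Lib.MP_305fdd_al.Su.CM.Emb

/-!
# MP_305fdd_al, closed surface groups: amalgams with an abelian side, even index
-/

set_option autoImplicit false
set_option linter.unusedSectionVars false

namespace Pool.Agent.SuAE

open Matrix Pool.Agent.Lib.MP_305fdd_al Pool.Agent.MP_305fdd_al Pool.Agent.SurfCnt Pool.Agent.SuD
  Pool.Agent.FrAsm Pool.Agent.FrS Pool.Agent.SuFI

/-! ## Cyclic groups of order two and four -/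

/-- multiplication by two -/
def i24 : ZMod 2 →+ ZMod 4 where
  toFun x := if x = 1 then 2 else 0
  map_zero' := by decide
  map_add' := by decide

/-- division by two -/
def h42 (x : ZMod 4) : ZMod 2 := if x = 2 then 1 else 0

/-- reduction -/
def r42 (x : ZMod 4) : ZMod 2 := if x = 1 ∨ x = 3 then 1 else 0

theorem r42_eq (x : ZMod 4) : ZMod.castHom (show 2 ∣ 4 by norm_num) (ZMod 2) x = r42 x := by
  revert x
  decide

theorem h42_add : ∀ x y : ZMod 4, r42 x = 0 → r42 y = 0 → h42 (x + y) = h42 x + h42 y := by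
  decide

theorem i24_h42 : ∀ x : ZMod 4, r42 x = 0 → i24 (h42 x) = x := by
  decide

/-- homomorphisms from the cyclic group of order four -/
def zh4 {G : Type} [Group G] (y : G) (hy : y ^ 4 = 1) : Multiplicative (ZMod 4) →* G where
  toFun a := y ^ (a.toAdd.val)
  map_one' := by
    change y ^ (0 : ZMod 4).val = 1
    rw [ZMod.val_zero, pow_zero]
  map_mul' a b := by
    have h1 : ∀ n : ℕ, y ^ (n % 4) = y ^ n := fun n => by
      conv_rhs => rw [← Nat.mod_add_div n 4, pow_add, pow_mul, hy, one_pow, mul_one]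
    rw [← pow_add, toAdd_mul, ZMod.val_add, h1]

theorem zh4_one {G : Type} [Group G] (y : G) (hy : y ^ 4 = 1) :
    zh4 y hy (Multiplicative.ofAdd 1) = y := by
  change y ^ (1 : ZMod 4).val = y
  have h : (1 : ZMod 4).val = 1 := rfl
  rw [h, pow_one]

theorem zh4_two {G : Type} [Group G] (y : G) (hy : y ^ 4 = 1) :
    zh4 y hy (Multiplicative.ofAdd 2) = y ^ 2 := by
  change y ^ (2 : ZMod 4).val = y ^ 2
  have h : (2 : ZMod 4).val = 2 := rfl
  rw [h]

/-- restriction of characters -/
def rs {G G' : Type} [Group G] [Group G'] (i : G →* G') :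
    (G' →* Multiplicative (ZMod 2)) →* (G →* Multiplicative (ZMod 2)) where
  toFun f := f.comp i
  map_one' := rfl
  map_mul' _ _ := rfl

theorem fin_char {G : Type} [Group G] (hG : Group.FG G) (P : Type) [AddCommGroup P] [Finite P] :
    Finite (G →* Multiplicative P) := by
  obtain ⟨S, hS⟩ := hG.out
  refine Finite.of_injective (fun f : G →* Multiplicative P => fun s : S => f s.1) ?_
  intro f f' he
  refine MonoidHom.eq_of_eqOn_dense hS ?_
  intro s hs
  exact congrFun he ⟨s, hs⟩

theorem card_ker_range {G H : Type} [Group G] [Group H] (f : G →* H) :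
    Nat.card G = Nat.card f.ker * Nat.card f.range := by
  have h11 : Nat.card (G ⧸ f.ker) = Nat.card f.range :=
    Nat.card_congr (QuotientGroup.quotientKerEquivRange f).toEquiv
  rw [← h11, mul_comm]
  exact Subgroup.card_eq_card_quotient_mul_card_subgroup f.ker

/-- characters with values in an elementary abelian group -/
theorem card_hom_pow (G P : Type) [Group G] [AddCommGroup P] [Module (ZMod 2) P] [Finite P] :
    ∃ r : ℕ, Nat.card P = 2 ^ r ∧
      Nat.card (G →* Multiplicative P) = Nat.card (G →* Multiplicative (ZMod 2)) ^ r := by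
  have : Module.Finite (ZMod 2) P := Module.Finite.of_finite
  let b := Module.finBasis (ZMod 2) P
  let r := Module.finrank (ZMod 2) P
  let e : P ≃+ (Fin r → ZMod 2) := b.equivFun.toAddEquiv
  refine ⟨r, ?_, ?_⟩
  · rw [Nat.card_congr e.toEquiv, Nat.card_fun, Nat.card_zmod, Nat.card_fin]
  · let E : (G →* Multiplicative P) ≃ (Fin r → (G →* Multiplicative (ZMod 2))) :=
      { toFun := fun f i => MonoidHom.mk' (fun x => Multiplicative.ofAdd (e (f x).toAdd i))
          (fun x y => by
            have h1 : (f (x * y)).toAdd = (f x).toAdd + (f y).toAdd :=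
              congrArg Multiplicative.toAdd (f.map_mul x y)
            rw [h1, map_add]
            rfl)
        invFun := fun f => MonoidHom.mk' (fun x => Multiplicative.ofAdd
          (e.symm (fun i => (f i x).toAdd))) (fun x y => by
            rw [← ofAdd_add, ← map_add]
            congr 2
            funext i
            rw [map_mul]
            rfl)
        left_inv := fun f => by
          apply MonoidHom.ext
          intro x
          change Multiplicative.ofAdd (e.symm (fun i => e (f x).toAdd i)) = f x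
          have h1 : (fun i => e (f x).toAdd i) = e (f x).toAdd := rfl
          rw [h1, e.symm_apply_apply]
          rfl
        right_inv := fun f => by
          funext i
          apply MonoidHom.ext
          intro x
          change Multiplicative.ofAdd (e (e.symm (fun i => (f i x).toAdd)) i) = f i x
          rw [e.apply_symm_apply]
          rfl }
    rw [Nat.card_congr E, Nat.card_fun, Nat.card_fin]

/-! ## The module of the matrices of trace zero over the field with two elements -/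

/-- the unipotent matrix -/
def Tu : SpecialLinearGroup (Fin 2) (ZMod 2) := ⟨!![1, 1; 0, 1], by decide⟩

theorem Tu_sq : Tu * Tu = 1 := by
  apply Subtype.ext
  change (!![1, 1; 0, 1] : Matrix (Fin 2) (Fin 2) (ZMod 2)) * !![1, 1; 0, 1] = 1
  decide

theorem Tu_ne : Tu ≠ 1 := by
  intro h
  have h1 : (!![1, 1; 0, 1] : Matrix (Fin 2) (Fin 2) (ZMod 2)) 0 1 =
    (1 : Matrix (Fin 2) (Fin 2) (ZMod 2)) 0 1 := congrFun (congrFun (congrArg Subtype.val h) 0) 1
  revert h1
  decide

/-- an element of order dividing four of the affine group -/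
def yX (X : SuCM.TK (ZMod 2)) :
    AF (SpecialLinearGroup (Fin 2) (ZMod 2)) (SuCM.TK (ZMod 2)) := ⟨X, Tu⟩

theorem yX_sq (X : SuCM.TK (ZMod 2)) : yX X ^ 2 = ⟨X + Tu • X, 1⟩ := by
  rw [pow_two]
  apply AF.ext
  · rfl
  · exact Tu_sq

theorem yX_four (X : SuCM.TK (ZMod 2)) : yX X ^ 4 = 1 := by
  have h1 : yX X ^ 4 = yX X ^ 2 * yX X ^ 2 := by rw [← pow_add]
  rw [h1, yX_sq]
  apply AF.ext
  · rw [AF.mul_v, one_smul, AF.one_v]
    exact ZModModule.add_self _
  · rw [AF.mul_q, one_mul]
    rfl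

theorem card_crs_Tu {g : ℕ} {Λ : Type} [Group Λ] (Φ : NatBij Λ (SurfG g))
    (ϑ : Λ →* SpecialLinearGroup (Fin 2) (ZMod 2)) (hϑ : ∃ x, ϑ x = Tu) :
    Nat.card (Crs ϑ (SuCM.TK (ZMod 2))) < Nat.card (SuCM.TK (ZMod 2)) ^ (2 * g) := by
  obtain ⟨x, hx⟩ := hϑ
  have h1 := card_Crs Φ ϑ (SuCM.TK (ZMod 2))
  have h2 : 1 < Nat.card (IP (SuCM.TK (ZMod 2)) ϑ.range) := by
    let p : SuCM.TK (ZMod 2) := SuCM.TK.mk !![0, 0; 1, 0] (by simp)
    have hxr : Tu ∈ ϑ.range := ⟨x, hx⟩
    have h3 : p - Tu • p ∈ IP (SuCM.TK (ZMod 2)) ϑ.range := sub_mem_IP hxr p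
    have h4 : p - Tu • p ≠ 0 := by
      intro h0
      have h5 : p = Tu • p := sub_eq_zero.1 h0
      have h6 : p.m 0 0 = (Tu • p).m 0 0 := by rw [← h5]
      rw [SuCM.TK.m_act, inv_eq_of_mul_eq_one_right Tu_sq] at h6
      have h7 : ((Tu.1 * p.m) * Tu.1 : Matrix (Fin 2) (Fin 2) (ZMod 2)) 0 0 = 1 := by
        change ((!![1, 1; 0, 1] * !![0, 0; 1, 0]) * !![1, 1; 0, 1] :
          Matrix (Fin 2) (Fin 2) (ZMod 2)) 0 0 = 1
        decide
      rw [h7] at h6
      revert h6
      change (0 : ZMod 2) = 1 → False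
      decide
    have : Nontrivial (IP (SuCM.TK (ZMod 2)) ϑ.range) :=
      ⟨⟨⟨_, h3⟩, 0, fun h => h4 (congrArg Subtype.val h)⟩⟩
    exact Finite.one_lt_card
  have h5 : 0 < Nat.card (SuCM.TK (ZMod 2)) ^ (2 * g) := by
    have : 0 < Nat.card (SuCM.TK (ZMod 2)) := Nat.card_pos
    positivity
  have h6 : 0 < Nat.card (Crs ϑ (SuCM.TK (ZMod 2))) := by
    rcases Nat.eq_zero_or_pos (Nat.card (Crs ϑ (SuCM.TK (ZMod 2)))) with h0 | h0
    · rw [h0, zero_mul] at h1
      omega
    · exact h0
  rw [← h1]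
  exact lt_mul_of_one_lt_right h6 h2

section even

variable {g : ℕ} {Λ Γ : Type} [Group Λ] [Group Γ] {π : Λ →* Γ}

/-- the square of an element of order two modulo the edge group is seen by a character of `A` -/
theorem exists_u0 [Group.FG Γ] (Φ : NatBij Λ (SurfG g)) (hF : Fac π) {A M C : Subgroup Γ}
    (h : IsAm ⊤ A M C) (hab : ∀ x ∈ M, ∀ y ∈ M, x * y = y * x)
    {w : Γ} (hw : w ∈ M) (hwC : w ∉ C) (hw2 : w ^ 2 ∈ C) :
    ∃ u : A →* Multiplicative (ZMod 2), u ⟨w ^ 2, h.le hw2⟩ ≠ 1 := by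
  classical
  let _ : CommGroup M := { (inferInstance : Group M) with
    mul_comm := fun y z => Subtype.ext (hab _ y.2 _ z.2) }
  by_contra hcon
  push Not at hcon
  obtain ⟨b, hb⟩ := half_of_char (B := Additive (Abelianization A))
    (x := Additive.ofMul (Abelianization.of ⟨w ^ 2, h.le hw2⟩)) (by
      intro f
      have h1 := hcon ((AddMonoidHom.toMultiplicativeRight f).comp Abelianization.of)
      exact congrArg Multiplicative.toAdd h1)
  obtain ⟨a, ha⟩ : ∃ a : A, Abelianization.of a = b.toMul :=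
    QuotientGroup.mk'_surjective _ b.toMul
  have h2 : Abelianization.of (⟨w ^ 2, h.le hw2⟩ : A) = Abelianization.of a * Abelianization.of a := by
    rw [ha]
    exact congrArg Additive.toMul hb
  have h3 : Abelianization.of (w ^ 2 : Γ) =
      Abelianization.of (a : Γ) * Abelianization.of (a : Γ) := by
    have h4 := congrArg (Abelianization.map A.subtype) h2
    rw [map_mul, Abelianization.map_of, Abelianization.map_of] at h4
    exact h4
  have h5 : Abelianization.of (w : Γ) = Abelianization.of (a : Γ) := by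
    have h6 := ab_no_two (G := Γ) (m := 2 * g) (fun ℓ hℓ => by
      have : Fact ℓ.Prime := ⟨hℓ⟩
      exact card_hom_add' Φ hF ℓ)
      (Additive.ofMul (Abelianization.of (w : Γ) * (Abelianization.of (a : Γ))⁻¹)) (by
        have h7 : (Abelianization.of (w : Γ) * (Abelianization.of (a : Γ))⁻¹) *
            (Abelianization.of (w : Γ) * (Abelianization.of (a : Γ))⁻¹) = 1 := by
          rw [mul_mul_mul_comm, ← map_mul, ← pow_two, h3, ← mul_inv, mul_inv_cancel]
        exact congrArg Additive.ofMul h7)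
    exact mul_inv_eq_one.1 (congrArg Additive.toMul h6)
  obtain ⟨f, hfA, hfM⟩ := am_extR h (embR_comm (M ⧸ C.subgroupOf M)) (1 : A →* _)
    (QuotientGroup.mk' (C.subgroupOf M)) (by
      intro d hd
      symm
      exact (QuotientGroup.eq_one_iff (N := C.subgroupOf M) (⟨d, h.le' hd⟩ : M)).2 hd)
  have h8 : f w = f a := by
    have h9 := congrArg (Abelianization.lift f) h5
    rwa [Abelianization.lift_apply_of, Abelianization.lift_apply_of] at h9
  have h10 := hfM ⟨w, hw⟩
  rw [h8, hfA] at h10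
  exact hwC ((QuotientGroup.eq_one_iff (N := C.subgroupOf M) (⟨w, hw⟩ : M)).1 h10.symm)

/-- NO AMALGAM with an abelian side of even index. -/
theorem ex_even [Group.FG Γ] (Φ : NatBij Λ (SurfG g)) (hF : Fac π) (hcup : Cup Γ)
    {A M C : Subgroup Γ} (hA : Group.FG A) (hM : Group.FG M)
    (htf : ∀ (x : Γ) (n : ℕ), n ≠ 0 → x ^ n = 1 → x = 1)
    (h : IsAm ⊤ A M C) (hab : ∀ x ∈ M, ∀ y ∈ M, x * y = y * x)
    (hfi : (C.subgroupOf M).FiniteIndex)
    {w : Γ} (hw : w ∈ M) (hwC : w ∉ C) (hw2 : w ^ 2 ∈ C) : False := by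
  classical
  obtain ⟨u₀, hu₀⟩ := exists_u0 Φ hF h hab hw hwC hw2
  let _ : CommGroup M := { (inferInstance : Group M) with
    mul_comm := fun y z => Subtype.ext (hab _ y.2 _ z.2) }
  let _ : CommGroup C := { (inferInstance : Group C) with
    mul_comm := fun y z => Subtype.ext (hab _ (h.le' y.2) _ (h.le' z.2)) }
  have hfinQ : Finite (M ⧸ C.subgroupOf M) := Subgroup.finite_quotient_of_finiteIndex
  -- the character
  obtain ⟨θ, hθC, hθ1⟩ : ∃ θ : M →* Multiplicative (ZMod 2),
      (∀ c (hc : c ∈ C), θ ⟨c, h.le' hc⟩ = 1) ∧ θ ≠ 1 := by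
    by_contra hcon
    push Not at hcon
    have h1 : ∀ f : Additive (M ⧸ C.subgroupOf M) →+ ZMod 2, f = 0 := by
      intro f
      have h2 := hcon ((AddMonoidHom.toMultiplicativeRight f).comp
        (QuotientGroup.mk' (C.subgroupOf M))) (by
          intro c hc
          have h3 : QuotientGroup.mk' (C.subgroupOf M) ⟨c, h.le' hc⟩ = 1 :=
            (QuotientGroup.eq_one_iff (N := C.subgroupOf M) (⟨c, h.le' hc⟩ : M)).2 hc
          rw [MonoidHom.comp_apply, h3, map_one])
      apply AddMonoidHom.ext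
      intro q
      obtain ⟨x, hx⟩ := QuotientGroup.mk'_surjective (C.subgroupOf M) q.toMul
      have h4 := DFunLike.congr_fun h2 x
      have h5 := congrArg Multiplicative.toAdd h4
      change f (Additive.ofMul (QuotientGroup.mk' (C.subgroupOf M) x)) = 0 at h5
      rw [hx] at h5
      exact h5
    have h6 := no_two h1 (t := Additive.ofMul (QuotientGroup.mk' (C.subgroupOf M) ⟨w, hw⟩)) (by
      have h7 : QuotientGroup.mk' (C.subgroupOf M) ⟨w, hw⟩ *
          QuotientGroup.mk' (C.subgroupOf M) ⟨w, hw⟩ = 1 := by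
        rw [← map_mul]
        refine (QuotientGroup.eq_one_iff (N := C.subgroupOf M) _).2 ?_
        change w * w ∈ C
        rwa [← pow_two]
      exact congrArg Additive.ofMul h7)
    exact hwC ((QuotientGroup.eq_one_iff (N := C.subgroupOf M) (⟨w, hw⟩ : M)).1
      (congrArg Additive.toMul h6))
  -- characters which agree on the edge group
  have key : ∀ (u : A →* Multiplicative (ZMod 2)) (m : M →* Multiplicative (ZMod 2)),
      (∀ c (hc : c ∈ C), u ⟨c, h.le hc⟩ = m ⟨c, h.le' hc⟩) → m = 1 ∨ m = θ := by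
    intro u m hum
    obtain ⟨χ₁, h1A, h1M⟩ := am_extR h (Emb.embR emb_two) u m hum
    obtain ⟨χ₂, h2A, h2M⟩ := am_extR h (Emb.embR emb_two) (1 : A →* _) θ
      (fun c hc => (hθC c hc).symm)
    by_contra hcon
    push Not at hcon
    obtain ⟨hm1, hm2⟩ := hcon
    obtain ⟨p, hp⟩ : ∃ p, m p ≠ 1 := by
      by_contra hc
      push Not at hc
      exact hm1 (MonoidHom.ext hc)
    obtain ⟨q, hq⟩ : ∃ q, θ q ≠ 1 := by
      by_contra hc
      push Not at hc
      exact hθ1 (MonoidHom.ext hc)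
    obtain ⟨r, hr⟩ : ∃ r, m r ≠ θ r := by
      by_contra hc
      push Not at hc
      exact hm2 (MonoidHom.ext hc)
    by_cases hmr : m r = 1
    · have hθr : θ r ≠ 1 := fun h0 => hr (hmr.trans h0.symm)
      rcases hcup.dep (hab r r.2 p p.2) with h3 | h3 | h3
      · exact hθr (by rw [← h2M]; exact h3 χ₂)
      · exact hp (by rw [← h1M]; exact h3 χ₁)
      · apply hp
        rw [← h1M, ← h3 χ₁, h1M, hmr]
    · have hθr : θ r = 1 := by
        by_contra h0
        exact hr ((f2_eq _ hmr).trans (f2_eq _ h0).symm)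
      rcases hcup.dep (hab r r.2 q q.2) with h3 | h3 | h3
      · exact hmr (by rw [← h1M]; exact h3 χ₁)
      · exact hq (by rw [← h2M]; exact h3 χ₂)
      · apply hq
        rw [← h2M, ← h3 χ₂, h2M, hθr]
  let iA : C →* A := Subgroup.inclusion h.le
  let iM : C →* M := Subgroup.inclusion h.le'
  have hresA : ∀ u : A →* Multiplicative (ZMod 2), ∀ c (hc : c ∈ C),
      rs iA u ⟨c, hc⟩ = u ⟨c, h.le hc⟩ := fun u c hc => rfl
  have hresM : ∀ u : M →* Multiplicative (ZMod 2), ∀ c (hc : c ∈ C),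
      rs iM u ⟨c, hc⟩ = u ⟨c, h.le' hc⟩ := fun u c hc => rfl
  have hθr : rs iM θ = 1 := MonoidHom.ext fun c => hθC c c.2
  have key1 : ∀ m, rs iM m = 1 → m = 1 ∨ m = θ := by
    intro m hm
    refine key 1 m fun c hc => ?_
    exact (DFunLike.congr_fun hm ⟨c, hc⟩).symm
  have key2 : ∀ u m, rs iA u = rs iM m → rs iM m = 1 := by
    intro u m hum
    rcases key u m (fun c hc => DFunLike.congr_fun hum ⟨c, hc⟩) with rfl | rfl
    · rfl
    · exact hθr
  -- finiteness
  have hfA : Finite (A →* Multiplicative (ZMod 2)) := fin_char hA _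
  have hfM : Finite (M →* Multiplicative (ZMod 2)) := fin_char hM _
  have hCfg : Group.FG C := by
    have h1 : Group.FG (C.subgroupOf M) := inferInstance
    exact Group.fg_of_surjective (f := (Subgroup.subgroupOfEquivOfLe h.le').toMonoidHom)
      (Subgroup.subgroupOfEquivOfLe h.le').surjective
  have hfC : Finite (C →* Multiplicative (ZMod 2)) := fin_char hCfg _
  -- the kernel of the restriction from `M`
  have hkM : Nat.card (rs iM).ker ≤ 2 := by
    have h1 : ∀ m : (rs iM).ker, m.1 = 1 ∨ m.1 = θ := fun m => key1 m.1 m.2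
    have h2 : Nat.card (rs iM).ker ≤ Nat.card Bool := by
      refine Nat.card_le_card_of_injective (fun m => decide (m.1 = 1)) ?_
      intro m m' hmm
      apply Subtype.ext
      simp only [decide_eq_decide] at hmm
      rcases h1 m with h3 | h3
      · rw [h3, hmm.1 h3]
      · rcases h1 m' with h4 | h4
        · rw [h4, hmm.2 h4]
        · rw [h3, h4]
    have h5 : Nat.card Bool = 2 := by rw [Nat.card_eq_fintype_card, Fintype.card_bool]
    rwa [h5] at h2
  have hCM : Nat.card (C →* Multiplicative (ZMod 2)) ≤ Nat.card (M →* Multiplicative (ZMod 2)) := by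
    rw [Nat.card_congr (MonoidHom.toAdditiveLeft (α := C) (β := ZMod 2)),
      Nat.card_congr (MonoidHom.toAdditiveLeft (α := M) (β := ZMod 2))]
    refine card_char_le (B := Additive M) (GroupFG.iff_add_fg.1 hM) ?_
      (MonoidHom.toAdditive iM) ?_
    · intro n x hn hx
      have h1 : (x.toMul : M) ^ n = 1 := congrArg Additive.toMul hx
      have h2 := htf (x.toMul : M) n hn (congrArg Subtype.val h1)
      exact Additive.toMul.injective (Subtype.ext h2)
    · intro x y hxy
      have h1 : iM x.toMul = iM y.toMul := hxy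
      exact Additive.toMul.injective (Subgroup.inclusion_injective h.le' h1)
  -- the product of the images
  let E : (rs iA).range × (rs iM).range → (C →* Multiplicative (ZMod 2)) := fun p => p.1.1 * p.2.1
  have hE : Function.Injective E := by
    rintro ⟨⟨_, u, rfl⟩, ⟨_, m, rfl⟩⟩ ⟨⟨_, u', rfl⟩, ⟨_, m', rfl⟩⟩ hpp
    change rs iA u * rs iM m = rs iA u' * rs iM m' at hpp
    have h1 : rs iA (u'⁻¹ * u) = rs iM (m' * m⁻¹) := by
      rw [map_mul, map_mul, map_inv, map_inv]
      calc (rs iA u')⁻¹ * rs iA u = (rs iA u')⁻¹ * (rs iA u * rs iM m) * (rs iM m)⁻¹ := by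
            rw [mul_assoc, mul_assoc, mul_inv_cancel, mul_one]
        _ = rs iM m' * (rs iM m)⁻¹ := by rw [hpp, ← mul_assoc, inv_mul_cancel, one_mul]
    have h2 := key2 _ _ h1
    have h3 : rs iM m' = rs iM m := by
      rw [map_mul, map_inv] at h2
      exact mul_inv_eq_one.1 h2
    have h4 : rs iA u = rs iA u' := by
      rw [h3] at hpp
      exact mul_right_cancel hpp
    exact Prod.ext (Subtype.ext h4) (Subtype.ext h3.symm)
  have hcE : Nat.card (rs iA).range * Nat.card (rs iM).range ≤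
      Nat.card (C →* Multiplicative (ZMod 2)) := by
    rw [← Nat.card_prod]
    exact Nat.card_le_card_of_injective E hE
  have hcM := card_ker_range (rs iM)
  have hRM : 0 < Nat.card (rs iM).range := Nat.card_pos
  have hRA2 : Nat.card (rs iA).range ≤ 2 := by
    by_contra hcon
    push Not at hcon
    have h1 : 3 * Nat.card (rs iM).range ≤ Nat.card (rs iA).range * Nat.card (rs iM).range :=
      Nat.mul_le_mul_right _ hcon
    have h2 : Nat.card (rs iM).ker * Nat.card (rs iM).range ≤ 2 * Nat.card (rs iM).range :=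
      Nat.mul_le_mul_right _ hkM
    omega
  have hu₀1 : rs iA u₀ ≠ 1 := fun h0 => hu₀ (DFunLike.congr_fun h0 ⟨w ^ 2, hw2⟩)
  have hRA : Nat.card (rs iA).range = 2 := by
    refine le_antisymm hRA2 ?_
    have : Nontrivial (rs iA).range :=
      ⟨⟨⟨_, u₀, rfl⟩, 1, fun h => hu₀1 (congrArg Subtype.val h)⟩⟩
    exact Finite.one_lt_card
  have hRAu : ∀ u, rs iA u ≠ 1 → rs iA u = rs iA u₀ := by
    intro u hu
    obtain ⟨y, hy, hy'⟩ := (Nat.card_eq_two_iff' (1 : (rs iA).range)).1 hRA
    have h1 := hy' ⟨_, u, rfl⟩ (fun h => hu (congrArg Subtype.val h))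
    have h2 := hy' ⟨_, u₀, rfl⟩ (fun h => hu₀1 (congrArg Subtype.val h))
    exact congrArg Subtype.val (h1.trans h2.symm)
  have hEs : Function.Surjective E := by
    refine (hE.bijective_of_nat_card_le ?_).2
    rw [Nat.card_prod, hRA]
    have h2 : Nat.card (rs iM).ker * Nat.card (rs iM).range ≤ 2 * Nat.card (rs iM).range :=
      Nat.mul_le_mul_right _ hkM
    omega
  -- the number of the characters of `A`
  have hcA : 2 ^ (2 * g) ≤ Nat.card (A →* Multiplicative (ZMod 2)) := by
    rw [card_ker_range (rs iA), hRA, ← card_hom_add' Φ hF 2]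
    have h1 : Nat.card (Γ →* Multiplicative (ZMod 2)) ≤
        Nat.card (rs iA).ker * Nat.card (rs iM).ker := by
      rw [← Nat.card_prod]
      have h2 : ∀ χ : Γ →* Multiplicative (ZMod 2),
          rs iA (χ.comp A.subtype) = rs iM (χ.comp M.subtype) := fun χ => rfl
      refine Nat.card_le_card_of_injective (fun χ : Γ →* Multiplicative (ZMod 2) =>
        ((⟨χ.comp A.subtype, (h2 χ).trans (key2 _ _ (h2 χ))⟩ : (rs iA).ker),
          (⟨χ.comp M.subtype, key2 _ _ (h2 χ)⟩ : (rs iM).ker))) ?_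
      intro χ χ' hχ
      rw [Prod.mk.injEq, Subtype.mk.injEq, Subtype.mk.injEq] at hχ
      exact am_hom_eq h (fun x => DFunLike.congr_fun hχ.1 x) (fun x => DFunLike.congr_fun hχ.2 x)
    exact h1.trans (Nat.mul_le_mul_left _ hkM)
  -- the lift of the character
  obtain ⟨f₁, hf₁⟩ := lift4 (B := Additive M) (GroupFG.iff_add_fg.1 hM) (by
    intro n x hn hx
    have h1 : (x.toMul : M) ^ n = 1 := congrArg Additive.toMul hx
    have h2 := htf (x.toMul : M) n hn (congrArg Subtype.val h1)
    exact Additive.toMul.injective (Subtype.ext h2)) (MonoidHom.toAdditiveLeft θ)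
  have hf₁' : ∀ x : M, r42 (f₁ (Additive.ofMul x)) = (θ x).toAdd := by
    intro x
    rw [← r42_eq]
    exact hf₁ (Additive.ofMul x)
  have hf₁C : ∀ c : C, r42 (f₁ (Additive.ofMul (iM c))) = 0 := by
    intro c
    rw [hf₁']
    exact congrArg Multiplicative.toAdd (hθC c c.2)
  let ψ : C →* Multiplicative (ZMod 2) := MonoidHom.mk'
    (fun c => Multiplicative.ofAdd (h42 (f₁ (Additive.ofMul (iM c))))) (fun x y => by
      rw [← ofAdd_add, ← h42_add _ _ (hf₁C x) (hf₁C y), ← map_add, map_mul]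
      rfl)
  obtain ⟨⟨⟨_, u, rfl⟩, ⟨_, m, rfl⟩⟩, hum⟩ := hEs ψ
  change rs iA u * rs iM m = ψ at hum
  let f : M →* Multiplicative (ZMod 4) := MonoidHom.mk'
    (fun x => Multiplicative.ofAdd (f₁ (Additive.ofMul x) - i24 (m x).toAdd)) (fun x y => by
      have e1 : f₁ (Additive.ofMul (x * y)) = f₁ (Additive.ofMul x) + f₁ (Additive.ofMul y) := by
        rw [← map_add]
        rfl
      have e2 : (m (x * y)).toAdd = (m x).toAdd + (m y).toAdd :=
        congrArg Multiplicative.toAdd (m.map_mul x y)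
      rw [← ofAdd_add, e1, e2, map_add]
      congr 1
      abel)
  have hfC : ∀ c (hc : c ∈ C), f ⟨c, h.le' hc⟩ =
      Multiplicative.ofAdd (i24 (u ⟨c, h.le hc⟩).toAdd) := by
    intro c hc
    change Multiplicative.ofAdd (f₁ (Additive.ofMul (iM ⟨c, hc⟩)) - i24 (m ⟨c, h.le' hc⟩).toAdd) = _
    congr 1
    have h1 := congrArg Multiplicative.toAdd (DFunLike.congr_fun hum ⟨c, hc⟩)
    change (u ⟨c, h.le hc⟩).toAdd + (m ⟨c, h.le' hc⟩).toAdd =
      h42 (f₁ (Additive.ofMul (iM ⟨c, hc⟩))) at h1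
    rw [sub_eq_iff_eq_add, ← map_add, h1, i24_h42 _ (hf₁C ⟨c, hc⟩)]
  have hfr : ∀ x, r42 (f x).toAdd = (θ x).toAdd := by
    intro x
    change r42 (f₁ (Additive.ofMul x) - i24 (m x).toAdd) = _
    rw [← hf₁']
    generalize f₁ (Additive.ofMul x) = a
    generalize (m x).toAdd = b
    revert a b
    decide
  -- an element of `M` which goes to the generator
  obtain ⟨x₁, hx₁⟩ : ∃ x₁ : M, f x₁ = Multiplicative.ofAdd 1 := by
    obtain ⟨q, hq⟩ : ∃ q, θ q ≠ 1 := by
      by_contra hc
      push Not at hc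
      exact hθ1 (MonoidHom.ext hc)
    have h1 : r42 (f q).toAdd ≠ 0 := by
      rw [hfr]
      intro h0
      exact hq (Multiplicative.toAdd.injective h0)
    have h2 : ∀ a : ZMod 4, r42 a ≠ 0 → a = 1 ∨ -a = 1 := by decide
    rcases h2 _ h1 with h3 | h3
    · exact ⟨q, Multiplicative.toAdd.injective h3⟩
    · exact ⟨q⁻¹, by rw [map_inv]; exact Multiplicative.toAdd.injective h3⟩
  -- characters of `A` with values in an elementary abelian group
  have hc₀ : ∀ u : A →* Multiplicative (SuCM.TK (ZMod 2)), u ⟨w ^ 2, h.le hw2⟩ = 1 →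
      ∀ c (hc : c ∈ C), u ⟨c, h.le hc⟩ = 1 := by
    intro u hu c hc
    apply Multiplicative.toAdd.injective
    rw [toAdd_one]
    apply sep2
    intro lam
    let χ : A →* Multiplicative (ZMod 2) := (AddMonoidHom.toMultiplicative lam).comp u
    have hχ : ∀ x, (χ x).toAdd = lam (u x).toAdd := fun x => rfl
    have h1 : rs iA χ = 1 := by
      by_contra h0
      have h2 := DFunLike.congr_fun (hRAu χ h0) ⟨w ^ 2, hw2⟩
      apply hu₀
      change χ ⟨w ^ 2, h.le hw2⟩ = u₀ ⟨w ^ 2, h.le hw2⟩ at h2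
      rw [← h2]
      apply Multiplicative.toAdd.injective
      rw [hχ, hu, toAdd_one, map_zero, toAdd_one]
    have h3 := congrArg Multiplicative.toAdd (DFunLike.congr_fun h1 ⟨c, hc⟩)
    exact h3
  refine ex_core Φ hF.surj hA h (Q := SpecialLinearGroup (Fin 2) (ZMod 2))
    (P := SuCM.TK (ZMod 2)) ?_ ((AF.pr _ _).comp ((zh4 (yX 0) (yX_four 0)).comp f))
    (fun X => (zh4 (yX X) (yX_four X)).comp f) ?_ x₁ ?_
    (fun X => MonoidHom.mk' (fun a => Multiplicative.ofAdd ((u a).toAdd • (X + Tu • X))) ?_) ?_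
    ⟨w ^ 2, h.le hw2⟩ hc₀ ?_ ?_
  · have : Algebra (ZMod 2) (DualNumber (ZMod 2)) := inferInstance
    exact ⟨DualNumber (ZMod 2), inferInstance, inferInstance, SuCM.eD, SuCM.eD_inj⟩
  · intro X x
    change (yX X ^ _).q = (yX 0 ^ _).q
    have h1 : ∀ (X : SuCM.TK (ZMod 2)) (n : ℕ), (yX X ^ n).q = Tu ^ n := by
      intro X n
      exact map_pow (AF.pr _ _) (yX X) n
    rw [h1, h1]
  · intro X
    change (zh4 (yX X) (yX_four X) (f x₁)).v = X
    rw [hx₁, zh4_one]
    rfl
  · intro a b
    have e2 : (u (a * b)).toAdd = (u a).toAdd + (u b).toAdd :=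
      congrArg Multiplicative.toAdd (u.map_mul a b)
    rw [e2, add_smul]
    rfl
  · intro X c hc
    change zh4 (yX X) (yX_four X) (f ⟨c, h.le' hc⟩) = ⟨(u ⟨c, h.le hc⟩).toAdd • (X + Tu • X), 1⟩
    rw [hfC c hc]
    have h1 : ∀ b : ZMod 2, b = 0 ∨ b = 1 := by decide
    rcases h1 (u ⟨c, h.le hc⟩).toAdd with h2 | h2
    · rw [h2, map_zero, ofAdd_zero, map_one, zero_smul]
      rfl
    · rw [h2, one_smul]
      have h3 : i24 1 = 2 := rfl
      rw [h3, zh4_two, yX_sq]
  · rintro ϑ ⟨x, hx⟩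
    refine card_crs_Tu Φ ϑ ⟨x, ?_⟩
    rw [hx]
    change (zh4 (yX 0) (yX_four 0) (f x₁)).q = Tu
    rw [hx₁, zh4_one]
    rfl
  · obtain ⟨r, hr1, hr2⟩ := card_hom_pow A (SuCM.TK (ZMod 2))
    rw [hr1, hr2, ← pow_mul, mul_comm r, pow_mul]
    exact Nat.pow_le_pow_left hcA r

end even

end Pool.Agent.SuAE
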