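import Pool.Agent.Lib.MP_305fdd_al.Su.AE.Main

/-!
# MP_305fdd_al, closed surface groups: an admissible splitting has no abelian leaf (master text, 3.4)
-/

set_option autoImplicit false
set_option linter.unusedSectionVars false

namespace Pool.Agent.SuAE

open Matrix Pool.Agent.Lib.MP_305fdd_al Pool.Agent.MP_305fdd_al Pool.Agent.SurfCnt Pool.Agent.SuD
  Pool.Agent.FrAsm Pool.Agent.FrS Pool.Agent.SuFI Pool.Agent.SuS Pool.Agent.FrS.GG Pool.Agent.SuL

theorem cphi_ne {Γ : Type} [Group Γ] (S : GG Γ) (e₀ : S.E) (h0 : S.a e₀ ≠ S.b e₀) {x y : S.V}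
    (ha : x ≠ S.a e₀) (hb : x ≠ S.b e₀) (h : x ≠ y) : S.cφ e₀ h0 x ≠ S.cφ e₀ h0 y := by
  intro he
  by_cases hy : y = S.b e₀
  · rw [hy, cφ_b, S.cφ_eq_iff e₀ h0 hb h0] at he
    exact ha he
  · rw [S.cφ_eq_iff e₀ h0 hb hy] at he
    exact h he

/-- Collapse of all the edges except the edge of a leaf. -/
theorem leaf_one {Γ : Type} [Group Γ] (P : Subgroup Γ) (S : GG Γ) (hS : S.Adm) (e : S.E) (x : S.V)
    (hx : S.a e = x ∨ S.b e = x) (hab : S.a e ≠ S.b e) (hl : S.Leaf x e) (hP : S.G x = P) :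
    ∃ S1 : GG Γ, S1.Adm ∧ ∃ (e1 : S1.E) (x1 : S1.V), (∀ e', e' = e1) ∧ S1.a e1 ≠ S1.b e1 ∧
      (S1.a e1 = x1 ∨ S1.b e1 = x1) ∧ S1.G x1 = P := by
  obtain ⟨n, hn⟩ : ∃ n, Fintype.card S.E = n := ⟨_, rfl⟩
  induction n using Nat.strong_induction_on generalizing S with
  | _ n ih =>
    by_cases h1 : ∀ e' : S.E, e' = e
    · exact ⟨S, hS, e, x, h1, hab, hx, hP⟩
    push Not at h1
    obtain ⟨e₀, h1⟩ := h1
    have hxa : x ≠ S.a e₀ := fun h => h1 (hl e₀ (Or.inl h.symm))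
    have hxb : x ≠ S.b e₀ := fun h => h1 (hl e₀ (Or.inr h.symm))
    by_cases h0 : S.a e₀ = S.b e₀
    · refine ih (Fintype.card (S.ctrL e₀).E) ?_ (S.ctrL e₀) (S.ctrL_adm e₀ h0.symm hS)
        (S.lE e₀ e h1.symm) (S.lV e₀ x) hx hab ?_ ?_ rfl
      · rw [← hn]
        refine Fintype.card_lt_of_injective_of_notMem (S.lF e₀) ?_ (b := e₀) ?_
        · intro x y hxy
          exact Subtype.ext hxy
        · rintro ⟨x, hx⟩
          exact S.lF_ne e₀ x hx
      · intro e' he'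
        exact Subtype.ext (hl (S.lF e₀ e') he')
      · rw [ctrL_G_ne _ _ hxa]
        exact hP
    · refine ih (Fintype.card (S.ctr e₀ h0).E) ?_ (S.ctr e₀ h0) (ctr_adm' S e₀ h0 hS)
        (S.cE e₀ h0 e h1.symm) (S.cφ e₀ h0 x) ?_ ?_ ?_ ?_ rfl
      · rw [← hn]
        refine Fintype.card_lt_of_injective_of_notMem (S.cF e₀ h0) ?_ (b := e₀) ?_
        · intro x y hxy
          exact Subtype.ext hxy
        · rintro ⟨x, hx⟩
          exact S.cF_ne e₀ h0 x hx
      · rcases hx with hx | hx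
        · left
          rw [ctr_a, cF_cE, hx]
        · right
          rw [ctr_b, cF_cE, hx]
      · rw [ctr_a, ctr_b, cF_cE]
        rcases hx with hx | hx
        · rw [hx]
          exact cphi_ne S e₀ h0 hxa hxb (fun h => hab (hx.trans h))
        · rw [hx]
          exact (cphi_ne S e₀ h0 hxa hxb (fun h => hab (h.symm.trans hx.symm))).symm
      · intro e' he'
        rw [ctr_a, ctr_b] at he'
        have h2 : S.cF e₀ h0 e' = e := by
          apply hl
          rcases he' with he' | he'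
          · left
            by_contra hcon
            exact cphi_ne S e₀ h0 hxa hxb (fun h => hcon h.symm) he'.symm
          · right
            by_contra hcon
            exact cphi_ne S e₀ h0 hxa hxb (fun h => hcon h.symm) he'.symm
        exact Subtype.ext h2
      · rw [ctr_G_ne _ _ _ hxa hxb]
        exact hP

variable {g : ℕ} {Λ Γ K F : Type} [Group Λ] [Group Γ] [Field K] [Field F] [Algebra (ZMod 2) K]
  [Algebra (ZMod 2) F] [Algebra K F] {T : Γ → K} {ρ : Γ →* SpecialLinearGroup (Fin 2) F}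
  {π : Λ →* Γ}

/-- an admissible splitting has no abelian leaf -/
theorem no_ab_leaf (H : Sc Γ K F T ρ) (D : Gd0 g π ρ) (hcup : Cup Γ) (S : GG Γ) (hS : S.Adm)
    (e : S.E) (x : S.V) (hx : S.a e = x ∨ S.b e = x) (hab : S.a e ≠ S.b e) (hl : S.Leaf x e) :
    S.NA x := by
  by_contra hcon
  have hcomm : ∀ y ∈ S.G x, ∀ z ∈ S.G x, y * z = z * y := not_not.1 hcon
  obtain ⟨S1, hS1, e1, x1, he1, hab1, hx1, hG⟩ := leaf_one (S.G x) S hS e x hx hab hl rfl
  rw [← hG] at hcomm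
  have h1 := one_am S1 hS1.toUP e1 he1 hab1
  rcases hx1 with rfl | rfl
  · obtain ⟨m, hm, hm'⟩ := hS1.nta e1 hab1 (fun e' _ => he1 e')
    exact ex H D hcup (IsAm.symm' h1) (fg_map_conj (hS1.fgV _) _) (hS1.fgV _) hcomm (hS1.ne e1)
      ⟨m, hm, hm'⟩
  · obtain ⟨m, hm, hm'⟩ := hS1.ntb e1 hab1 (fun e' _ => he1 e')
    refine ex H D hcup h1 (hS1.fgV _) (fg_map_conj (hS1.fgV _) _) ?_ (hS1.ne e1)
      ⟨S1.s e1 * m * (S1.s e1)⁻¹, ⟨m, hm, rfl⟩, hm'⟩
    intro y hy z hz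
    rw [mem_map_conj] at hy hz
    have h2 := hcomm _ hy _ hz
    have h5 : y * z = S1.s e1 * ((S1.s e1)⁻¹ * y * S1.s e1 * ((S1.s e1)⁻¹ * z * S1.s e1)) *
        (S1.s e1)⁻¹ := by group
    rw [h5, h2]
    group

end Pool.Agent.SuAE
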