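import Pool.Agent.Lib.MP_305fdd_al.Su.AE.Core
import Pool.Agent.Lib.MP_305fdd_al.Su.FI.Main

/-!
# MP_305fdd_al, closed surface groups: amalgams with an abelian side, odd index
-/

set_option autoImplicit false
set_option linter.unusedSectionVars false

namespace Pool.Agent.SuAE

open Matrix Pool.Agent.Lib.MP_305fdd_al Pool.Agent.MP_305fdd_al Pool.Agent.SurfCnt Pool.Agent.SuD
  Pool.Agent.FrAsm Pool.Agent.FrS Pool.Agent.SuFI

/-- commuting elements have linearly dependent classes in `H_1(Γ; 𝔽_2)` -/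
def Cup (Γ : Type) [Group Γ] : Prop :=
  ∀ x y : Γ, x * y = y * x → ∀ φ ψ : Γ →* Multiplicative (ZMod 2),
    ¬ (φ x ≠ 1 ∧ φ y = 1 ∧ ψ x = 1 ∧ ψ y ≠ 1)

theorem f2_eq (x : Multiplicative (ZMod 2)) (h : x ≠ 1) : x = Multiplicative.ofAdd 1 := by
  revert x
  decide

theorem f2_sq (x : Multiplicative (ZMod 2)) : x * x = 1 := by
  revert x
  decide

theorem f2_mul {x y : Multiplicative (ZMod 2)} (hx : x ≠ 1) (hy : y ≠ 1) : x * y = 1 := by
  rw [f2_eq x hx, f2_eq y hy]
  exact f2_sq _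

theorem Cup.dep {Γ : Type} [Group Γ] (h : Cup Γ) {x y : Γ} (hxy : x * y = y * x) :
    (∀ χ : Γ →* Multiplicative (ZMod 2), χ x = 1) ∨
    (∀ χ : Γ →* Multiplicative (ZMod 2), χ y = 1) ∨
    ∀ χ : Γ →* Multiplicative (ZMod 2), χ x = χ y := by
  by_contra hcon
  push Not at hcon
  obtain ⟨⟨χ₁, h1⟩, ⟨χ₂, h2⟩, χ₃, h3⟩ := hcon
  by_cases h4 : χ₃ x = 1
  · have h5 : χ₃ y ≠ 1 := fun h => h3 (h4.trans h.symm)
    by_cases h6 : χ₁ y = 1
    · exact h x y hxy χ₁ χ₃ ⟨h1, h6, h4, h5⟩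
    · refine h x y hxy (χ₁ * χ₃) χ₃ ⟨?_, ?_, h4, h5⟩
      · rw [MonoidHom.mul_apply, h4, mul_one]
        exact h1
      · rw [MonoidHom.mul_apply]
        exact f2_mul h6 h5
  · have h5 : χ₃ y = 1 := by
      by_contra h
      exact h3 ((f2_eq _ h4).trans (f2_eq _ h).symm)
    by_cases h6 : χ₂ x = 1
    · exact h x y hxy χ₃ χ₂ ⟨h4, h5, h6, h2⟩
    · refine h x y hxy χ₃ (χ₂ * χ₃) ⟨h4, h5, ?_, ?_⟩
      · rw [MonoidHom.mul_apply]
        exact f2_mul h6 h4
      · rw [MonoidHom.mul_apply, h5, mul_one]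
        exact h2

/-- functionals separate the elements of an elementary abelian `2`-group -/
theorem sep2 {P : Type} [AddCommGroup P] [Module (ZMod 2) P] {p : P}
    (h : ∀ lam : P →+ ZMod 2, lam p = 0) : p = 0 :=
  (Module.forall_dual_apply_eq_zero_iff (ZMod 2) p).1 fun f => h f.toAddMonoidHom

section odd

variable {g : ℕ} {Λ Γ : Type} [Group Λ] [Group Γ] {π : Λ →* Γ}

/-- restriction of characters to `A` -/
theorem restr_odd {A M C : Subgroup Γ} (hA : Group.FG A) (h : IsAm ⊤ A M C) {n : ℕ}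
    (hM : ∀ x ∈ M, x ^ n ∈ C) {G : Type} [CommGroup G] [Finite G]
    (hG : ∀ x : G, x ^ n = 1 → x = 1) :
    Nat.card (Γ →* G) ≤ Nat.card (A →* G) := by
  have hfin : Finite (A →* G) := by
    obtain ⟨S, hS⟩ := hA.out
    refine Finite.of_injective (fun f : A →* G => fun s : S => f s.1) ?_
    intro f f' he
    refine MonoidHom.eq_of_eqOn_dense hS ?_
    intro s hs
    exact congrFun he ⟨s, hs⟩
  refine Nat.card_le_card_of_injective (fun f : Γ →* G => f.comp A.subtype) ?_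
  intro f f' he
  have hA' : ∀ x : A, f x = f' x := fun x => DFunLike.congr_fun he x
  refine am_hom_eq h hA' ?_
  intro x
  have h1 : (f x * (f' x)⁻¹) ^ n = 1 := by
    rw [mul_pow, inv_pow, ← map_pow, ← map_pow]
    have h2 := hA' ⟨x ^ n, h.le (hM x x.2)⟩
    change f ((x : Γ) ^ n) = f' ((x : Γ) ^ n) at h2
    rw [h2, mul_inv_cancel]
  exact mul_inv_eq_one.1 (hG _ h1)

/-- NO AMALGAM with an abelian side of odd index. -/
theorem ex_odd (Φ : NatBij Λ (SurfG g)) (hF : Fac π) (hcup : Cup Γ) {A M C : Subgroup Γ}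
    (hA : Group.FG A) (h : IsAm ⊤ A M C) (hab : ∀ x ∈ M, ∀ y ∈ M, x * y = y * x) {n : ℕ}
    (hn : Odd n) (hM : ∀ x ∈ M, x ^ n ∈ C) (hfi : (C.subgroupOf M).FiniteIndex)
    (hne : ∃ w ∈ M, w ∉ C) : False := by
  classical
  let _ : CommGroup M := { (inferInstance : Group M) with
    mul_comm := fun y z => Subtype.ext (hab _ y.2 _ z.2) }
  obtain ⟨w, hw, hwC⟩ := hne
  -- the field
  obtain ⟨k, _, _, _, hk⟩ := exists_units' n hn
  obtain ⟨f, hf⟩ := hk n dvd_rfl
  have : NeZero n := ⟨hn.pos.ne'⟩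
  have hk2 : CharP k 2 := charP_of_injective_algebraMap (algebraMap (ZMod 2) k).injective 2
  have hfinQ : Finite (M ⧸ C.subgroupOf M) := Subgroup.finite_quotient_of_finiteIndex
  have hexp : Monoid.exponent (M ⧸ C.subgroupOf M) ∣ n := by
    apply Monoid.exponent_dvd_of_forall_pow_eq_one
    intro q
    obtain ⟨x, rfl⟩ := QuotientGroup.mk_surjective q
    rw [← QuotientGroup.mk_pow]
    exact (QuotientGroup.eq_one_iff _).2 (hM x x.2)
  have hroots : HasEnoughRootsOfUnity k n := by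
    refine { prim := ⟨(f (Multiplicative.ofAdd 1) : k), ?_⟩, cyc := inferInstance }
    have h1 : orderOf (f (Multiplicative.ofAdd (1 : ZMod n))) = n := by
      rw [orderOf_injective f hf, orderOf_ofAdd_eq_addOrderOf, ZMod.addOrderOf_one]
    have h2 := IsPrimitiveRoot.orderOf (f (Multiplicative.ofAdd (1 : ZMod n)))
    rw [h1] at h2
    exact IsPrimitiveRoot.coe_units_iff.2 h2
  have hroots' : HasEnoughRootsOfUnity k (Monoid.exponent (M ⧸ C.subgroupOf M)) :=
    HasEnoughRootsOfUnity.of_dvd k hexp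
  -- the character
  have hq : ((⟨w, hw⟩ : M) : M ⧸ C.subgroupOf M) ≠ 1 := by
    intro h0
    exact hwC ((QuotientGroup.eq_one_iff (N := C.subgroupOf M) (⟨w, hw⟩ : M)).1 h0)
  obtain ⟨ξ, hξ⟩ := CommGroup.exists_apply_ne_one_of_hasEnoughRootsOfUnity
    (M ⧸ C.subgroupOf M) k hq
  let θ : M →* kˣ := ξ.comp (QuotientGroup.mk' _)
  have hθC : ∀ c (hc : c ∈ C), θ ⟨c, h.le' hc⟩ = 1 := by
    intro c hc
    have h0 : (QuotientGroup.mk ⟨c, h.le' hc⟩ : M ⧸ C.subgroupOf M) = 1 :=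
      (QuotientGroup.eq_one_iff _).2 hc
    change ξ (QuotientGroup.mk ⟨c, h.le' hc⟩) = 1
    rw [h0, map_one]
  let x₁ : M := ⟨w, hw⟩
  have hθx : θ x₁ ≠ 1 := hξ
  have hcv : (1 : k) - (θ x₁ : k) ≠ 0 := by
    intro h0
    apply hθx
    apply Units.ext
    rw [Units.val_one]
    exact (sub_eq_zero.1 h0).symm
  -- `n = 1` in `k`
  have hn1 : (n : k) = 1 := by
    obtain ⟨m, rfl⟩ := hn
    push_cast
    rw [CharTwo.two_eq_zero, zero_mul, zero_add]
  have hG : ∀ x : Multiplicative k, x ^ n = 1 → x = 1 := by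
    intro x hx
    have h2 : (n : k) * x.toAdd = 0 := by
      have h2 := congrArg Multiplicative.toAdd hx
      rw [toAdd_pow, toAdd_one, nsmul_eq_mul] at h2
      exact h2
    rw [hn1, one_mul] at h2
    exact Multiplicative.toAdd.injective h2
  have hGn : ∀ x : Multiplicative k, x ^ n = x := by
    intro x
    apply Multiplicative.toAdd.injective
    rw [toAdd_pow, nsmul_eq_mul, hn1, one_mul]
  -- characters of `A` extend
  have hext : ∀ u : A →* Multiplicative k, ∃ f : Γ →* Multiplicative k, ∀ x : A, f x = u x := by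
    intro u
    let u' : M →* Multiplicative k := MonoidHom.mk' (fun x => u ⟨(x : Γ) ^ n, h.le (hM x x.2)⟩)
      (fun x y => by
        rw [← map_mul]
        congr 1
        apply Subtype.ext
        change ((x : Γ) * y) ^ n = (x : Γ) ^ n * (y : Γ) ^ n
        exact (show Commute (x : Γ) y from hab x x.2 y y.2).mul_pow n)
    obtain ⟨f, hfA, _⟩ := am_extR h (Emb.embR (emb_add k)) u u' (by
      intro d hd
      change u ⟨d, h.le hd⟩ = u ⟨d ^ n, _⟩
      have h3 : (⟨d ^ n, h.le (hM d (h.le' hd))⟩ : A) = ⟨d, h.le hd⟩ ^ n := rfl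
      rw [h3, map_pow, hGn])
    exact ⟨f, hfA⟩
  -- the base element
  obtain ⟨c₀, hc₀, hc₀'⟩ : ∃ c₀ ∈ C, (∀ χ : Γ →* Multiplicative (ZMod 2), χ c₀ = 1) →
      ∀ c ∈ C, ∀ χ : Γ →* Multiplicative (ZMod 2), χ c = 1 := by
    by_cases hcon : ∃ c ∈ C, ∃ χ : Γ →* Multiplicative (ZMod 2), χ c ≠ 1
    · obtain ⟨c, hc, χ, hχ⟩ := hcon
      exact ⟨c, hc, fun h0 => absurd (h0 χ) hχ⟩
    · push Not at hcon
      exact ⟨1, one_mem _, fun _ c hc χ => hcon c hc χ⟩
  refine ex_core Φ hF.surj hA h (Q := kˣ) (P := k) (Emb.embR (emb_AF k)) θ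
    (fun X => MonoidHom.mk' (fun x => (⟨((1 : k) - (θ x : k)) * (((1 : k) - (θ x₁ : k))⁻¹ * X),
      θ x⟩ : AF kˣ k)) (fun x y => by
        apply AF.ext
        · rw [AF.mul_v, Units.smul_def, smul_eq_mul, map_mul, Units.val_mul]
          ring
        · rw [AF.mul_q, map_mul])) (fun X x => rfl) x₁ ?_ (fun _ => 1) ?_
    ⟨c₀, h.le hc₀⟩ ?_ ?_ ?_
  · intro X
    change ((1 : k) - (θ x₁ : k)) * (((1 : k) - (θ x₁ : k))⁻¹ * X) = X
    rw [mul_inv_cancel_left₀ hcv]
  · intro X c hc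
    apply AF.ext
    · change ((1 : k) - (θ _ : k)) * _ = 0
      rw [hθC c hc, Units.val_one, sub_self, zero_mul]
    · exact hθC c hc
  · intro u hu c hc
    obtain ⟨f, hfA⟩ := hext u
    have hfc : ∀ x : A, (u x).toAdd = (f x).toAdd := fun x => by rw [hfA]
    apply Multiplicative.toAdd.injective
    rw [hfc, toAdd_one]
    apply sep2
    intro lam
    let χ : Γ →* Multiplicative (ZMod 2) := (AddMonoidHom.toMultiplicative lam).comp f
    have hχ : ∀ x, (χ x).toAdd = lam (f x).toAdd := fun x => rfl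
    have hχ0 : χ c₀ = 1 := by
      apply Multiplicative.toAdd.injective
      rw [hχ, ← hfc ⟨c₀, h.le hc₀⟩, hu, toAdd_one, map_zero, toAdd_one]
    have hcc : c₀ * c = c * c₀ := hab _ (h.le' hc₀) _ (h.le' hc)
    have hgoal : χ c = 1 := by
      rcases hcup.dep hcc with h3 | h3 | h3
      · exact hc₀' h3 c hc χ
      · exact h3 χ
      · rw [← h3 χ, hχ0]
    have h4 := congrArg Multiplicative.toAdd hgoal
    rw [hχ, toAdd_one] at h4
    exact h4
  · rintro ϑ ⟨x, hx⟩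
    have h3 := card_crs_ne Φ k ϑ (by
      rintro rfl
      exact hθx hx.symm)
    have h4 : 1 < Nat.card k := Finite.one_lt_card
    have h5 : 0 < Nat.card k ^ (2 * g) := by positivity
    have h6 : 0 < Nat.card (Crs ϑ k) := by
      rcases Nat.eq_zero_or_pos (Nat.card (Crs ϑ k)) with h0 | h0
      · rw [h0, zero_mul] at h3
        omega
      · exact h0
    rw [← h3]
    exact lt_mul_of_one_lt_right h6 h4
  · rw [← card_hom_add Φ k, ← hF.card (emb_add k)]
    exact restr_odd hA h hM hG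

end odd

end Pool.Agent.SuAE
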